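import Pool.Agent.H32.SAB.TargetsT

/-!
# Row PSTL: Springer's theorem for totally isotropic subspaces and finite extensions of odd degree
-/

set_option autoImplicit false

open Polynomial Matrix Pool.Agent.H32.SAB

namespace Pool.Agent.H17.SAB

/-- transport along a ring isomorphism over the base field -/
theorem ti_transport {F L M : Type} [Field F] [Field L] [Field M] [Algebra F L] [Algebra F M]
    (φ : L ≃ₐ[F] M) {n r : ℕ} {A : Matrix (Fin n) (Fin n) F}
    (h : TI (A.map (algebraMap F L)) r) : TI (A.map (algebraMap F M)) r := by
  obtain ⟨b, hb, hA⟩ := h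
  refine ⟨fun i j => φ (b i j), ?_, fun i j => ?_⟩
  · have h1 := hb.map_of_surjective_injective (R' := M) (M' := Fin n → M) (fun x => φ x)
      ((φ : L →+* M).toAddMonoidHom.compLeft (Fin n)) φ.surjective ?_ ?_
    · exact h1
    · intro m hm
      funext j
      have h2 : φ (m j) = 0 := congrFun hm j
      exact (map_eq_zero_iff φ φ.injective).1 h2
    · intro c m
      funext j
      exact map_mul φ c (m j)
  · have h1 := congrArg φ (hA i j)
    rw [map_zero] at h1
    rw [← h1]
    simp only [dotProduct, Matrix.mulVec, Matrix.map_apply, map_sum, map_mul, AlgEquiv.commutes]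

theorem pf_STL (hSTI : T_STI) (hTIC : T_TIC) : T_STL := by
  intro F L _ _ _ _ _ hodd n r A hA hdet hTI
  obtain ⟨θ, hθ⟩ := Field.exists_primitive_element F L
  have hint : IsIntegral F θ := Algebra.IsIntegral.isIntegral θ
  have hp : Irreducible (minpoly F θ) := minpoly.irreducible hint
  have hdeg : (minpoly F θ).natDegree = Module.finrank F L := by
    rw [← IntermediateField.adjoin.finrank hint, hθ]
    exact IntermediateField.finrank_top'
  have : Fact (Irreducible (minpoly F θ)) := ⟨hp⟩
  let e : AdjoinRoot (minpoly F θ) ≃ₐ[F] L :=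
    (IntermediateField.adjoinRootEquivAdjoin F hint).trans
      ((IntermediateField.equivOfEq hθ).trans IntermediateField.topEquiv)
  refine hSTI F two_ne_zero (minpoly F θ) hp (by rw [hdeg]; exact hodd) n r A hA hdet ?_
  exact ti_transport e.symm hTI

end Pool.Agent.H17.SAB
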